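import Mathlib

/-!
Project FM, part CV: elementary lemmas on real functions.
-/

set_option autoImplicit false

open Set

namespace Pool.Agent.W935.FM

/-- oscillation -/
lemma osc {f f' : ℝ → ℝ} (hf : ∀ x, HasDerivAt f (f' x) x) {a b D : ℝ}
    (hD : ∀ x ∈ Icc a b, |f' x| ≤ D) {x y : ℝ} (hx : x ∈ Icc a b) (hy : y ∈ Icc a b) :
    |f x - f y| ≤ D * |x - y| := by
  have := (convex_Icc a b).norm_image_sub_le_of_norm_hasDerivWithin_le
    (fun z _ => (hf z).hasDerivWithinAt) (fun z hz => by rw [Real.norm_eq_abs]; exact hD z hz) hy hx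
  simpa [Real.norm_eq_abs] using this

/-- the first point where a value is attained -/
lemma first_hit {g : ℝ → ℝ} (hg : Continuous g) {x y κ : ℝ} (hx : g x < κ) (hy : κ ≤ g y) :
    ∃ z ∈ uIcc x y, g z = κ ∧ ∀ t ∈ uIcc x z, g t ≤ κ := by
  set h : ℝ → ℝ := fun t => g (x + t * (y - x)) with hh
  have hc : Continuous h := by fun_prop
  have h0 : h 0 = g x := by simp [hh]
  have h1 : h 1 = g y := by simp [hh]
  set T : Set ℝ := {t | t ∈ Icc (0:ℝ) 1 ∧ κ ≤ h t} with hT
  have hTc : IsCompact T := isCompact_Icc.inter_right (isClosed_le continuous_const hc)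
  have hTn : T.Nonempty := ⟨1, ⟨by norm_num, le_rfl⟩, by rw [h1]; exact hy⟩
  have ht0 := hTc.sInf_mem hTn
  set t0 := sInf T with ht0d
  have hmin : ∀ t ∈ T, t0 ≤ t := fun t ht => csInf_le hTc.bddBelow ht
  have hlt : ∀ t, 0 ≤ t → t < t0 → h t < κ := by
    intro t ht htt
    by_contra hcon
    push Not at hcon
    exact absurd (hmin t ⟨⟨ht, (htt.le.trans ht0.1.2)⟩, hcon⟩) (not_le.2 htt)
  have heq : h t0 = κ := by
    obtain ⟨t1, ht1, ht1e⟩ := intermediate_value_Icc ht0.1.1 hc.continuousOn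
      (show κ ∈ Icc (h 0) (h t0) from ⟨by rw [h0]; exact hx.le, ht0.2⟩)
    have := hmin t1 ⟨⟨ht1.1, ht1.2.trans ht0.1.2⟩, ht1e.ge⟩
    have e : t1 = t0 := le_antisymm ht1.2 this
    rw [← e]; exact ht1e
  refine ⟨x + t0 * (y - x), ?_, heq, ?_⟩
  · rw [← segment_eq_uIcc, segment_eq_image']
    exact ⟨t0, ht0.1, by simp [smul_eq_mul]⟩
  · intro t ht
    rw [← segment_eq_uIcc, segment_eq_image'] at ht
    obtain ⟨θ, hθ, rfl⟩ := ht
    have e : x + θ • (x + t0 * (y - x) - x) = x + (θ * t0) * (y - x) := by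
      simp [smul_eq_mul]; ring
    show g (x + θ • (x + t0 * (y - x) - x)) ≤ κ
    rw [e]
    have h2 : 0 ≤ θ * t0 := mul_nonneg hθ.1 ht0.1.1
    have h3 : θ * t0 ≤ t0 := by nlinarith [hθ.2, ht0.1.1]
    rcases h3.lt_or_eq with h4 | h4
    · exact (hlt _ h2 h4).le
    · rw [h4]; exact heq.le

/-- monotone functions: sublevel sets are intervals -/
lemma interval_of_mono {f : ℝ → ℝ} {a b : ℝ} (hf : Continuous f)
    (hm : MonotoneOn f (Icc a b) ∨ AntitoneOn f (Icc a b)) (hne : ∃ g ∈ Icc a b, |f g| ≤ 1) :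
    ∃ u v, u ∈ Icc a b ∧ u ≤ v ∧ (∀ e ∈ Icc u v, |f e| ≤ 1) ∧
      ∀ e ∈ Icc a b, |f e| ≤ 1 → e ∈ Icc u v := by
  set T : Set ℝ := {t | t ∈ Icc a b ∧ |f t| ≤ 1} with hT
  have hTc : IsCompact T := isCompact_Icc.inter_right (isClosed_le hf.abs continuous_const)
  have hTn : T.Nonempty := by obtain ⟨g, h1, h2⟩ := hne; exact ⟨g, h1, h2⟩
  have hu := hTc.sInf_mem hTn
  have hv := hTc.sSup_mem hTn
  have hl : ∀ t ∈ T, sInf T ≤ t := fun t ht => csInf_le hTc.bddBelow ht
  have hr : ∀ t ∈ T, t ≤ sSup T := fun t ht => le_csSup hTc.bddAbove ht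
  refine ⟨sInf T, sSup T, hu.1, hr _ hu, ?_, fun e he h => ⟨hl e ⟨he, h⟩, hr e ⟨he, h⟩⟩⟩
  intro e he
  have he' : e ∈ Icc a b := ⟨hu.1.1.trans he.1, he.2.trans hv.1.2⟩
  have h1 := abs_le.1 hu.2
  have h2 := abs_le.1 hv.2
  rw [abs_le]
  rcases hm with hm | hm
  · have h3 := hm hu.1 he' he.1
    have h4 := hm he' hv.1 he.2
    constructor <;> linarith
  · have h3 := hm hu.1 he' he.1
    have h4 := hm he' hv.1 he.2
    constructor <;> linarith

/-- nonvanishing derivative up to distortion: monotone -/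
lemma mono_of {f f' : ℝ → ℝ} (hf : ∀ x, HasDerivAt f (f' x) x) (hc : Continuous f') {a b C : ℝ}
    (hC : ∀ x ∈ Icc a b, ∀ y ∈ Icc a b, |f' x| ≤ C * |f' y|) :
    MonotoneOn f (Icc a b) ∨ AntitoneOn f (Icc a b) := by
  have key : (∀ x ∈ Icc a b, 0 ≤ f' x) ∨ (∀ x ∈ Icc a b, f' x ≤ 0) := by
    by_contra hcon
    push Not at hcon
    obtain ⟨⟨x, hx, hx'⟩, y, hy, hy'⟩ := hcon
    obtain ⟨z, hz, hz'⟩ := isPreconnected_Icc.intermediate_value hx hy hc.continuousOn
      (show (0:ℝ) ∈ Icc (f' x) (f' y) from ⟨hx'.le, hy'.le⟩)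
    have := hC x hx z hz
    rw [hz', abs_zero, mul_zero] at this
    have := abs_nonpos_iff.1 this
    linarith
  have hcf : ContinuousOn f (Icc a b) := fun x _ => (hf x).continuousAt.continuousWithinAt
  rcases key with h | h
  · left
    refine monotoneOn_of_deriv_nonneg (convex_Icc a b) hcf
      (fun x _ => (hf x).differentiableAt.differentiableWithinAt) (fun x hx => ?_)
    rw [(hf x).deriv]
    exact h x (interior_subset hx)
  · right
    refine antitoneOn_of_deriv_nonpos (convex_Icc a b) hcf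
      (fun x _ => (hf x).differentiableAt.differentiableWithinAt) (fun x hx => ?_)
    rw [(hf x).deriv]
    exact h x (interior_subset hx)

/-- mesh -/
lemma mesh {a b : ℝ} (hab : a < b) {M : ℕ} (hM : 0 < M) {g : ℝ} (hg : g ∈ Icc a b) :
    ∃ i : Fin M, g ∈ Icc (a + (i : ℕ) * ((b - a) / M)) (a + ((i : ℕ) + 1) * ((b - a) / M)) := by
  have hM' : (0:ℝ) < M := by exact_mod_cast hM
  have hw : 0 < (b - a) / M := div_pos (by linarith) hM'
  have hMw : (M:ℝ) * ((b - a) / M) = b - a := by field_simp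
  rcases hg.2.lt_or_eq with h | h
  · have hr : 0 ≤ (g - a) / ((b - a) / M) := div_nonneg (by linarith [hg.1]) hw.le
    have h1 := Nat.floor_le hr
    have h2 := Nat.lt_floor_add_one ((g - a) / ((b - a) / M))
    have h3 : ⌊(g - a) / ((b - a) / M)⌋₊ < M := by
      rw [Nat.floor_lt hr, div_lt_iff₀ hw, hMw]
      linarith
    refine ⟨⟨_, h3⟩, ?_, ?_⟩
    · have := (le_div_iff₀ hw).1 h1
      simp only
      linarith
    · have := (div_lt_iff₀ hw).1 h2
      simp only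
      linarith
  · refine ⟨⟨M - 1, by omega⟩, ?_, ?_⟩
    · simp only
      rw [Nat.cast_sub hM, Nat.cast_one]
      nlinarith
    · simp only
      rw [Nat.cast_sub hM, Nat.cast_one]
      nlinarith

end Pool.Agent.W935.FM
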