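import Mathlib
import Pool.Agent.W745.Fib.Stm
import Pool.Agent.W935.FM.CVa

/-!
Project FM, part CV: the local covers.
-/

set_option autoImplicit false

open Polynomial Set
open scoped ENNReal NNReal

namespace Pool.Agent.W935.FM

open Pool.Agent.W811.Stu Pool.Agent.W745.Fib

lemma mem_Sp (lam E : ℝ) :
    E ∈ Sp lam one ↔ ∀ m, |tr lam (m + 1) E| ≤ 1 ∨ |tr lam (m + 2) E| ≤ 1 := by
  unfold Sp
  simp only [mem_ofPred_eq, orb_y]

/-- constants of the four inputs, with `κ = (1+c)/2` -/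
structure Cst (lam κ B R D c : ℝ) : Prop where
  hκ : 1 < κ
  hB1 : 1 ≤ B
  hR1 : 1 ≤ R
  hD1 : 1 ≤ D
  hc : 0 < c
  bd : ∀ n : ℕ, 1 ≤ n → ∀ E : ℝ, |tr lam n E| ≤ 1 → (∀ j, j ≤ n + 1 → |tr lam j E| ≤ B) ∧
    ∀ j, j < n → |tr lam j E| ≤ 1 ∨ |tr lam (j + 1) E| ≤ 1
  rt : ∀ n : ℕ, 3 ≤ n → ∀ E : ℝ, |tr lam n E| ≤ κ → |dE lam (n - 1) E| ≤ R * |dE lam n E| ∧
    |dE lam (n + 1) E| ≤ R * (1 + |tr lam (n - 1) E|) * |dE lam n E|
  di : ∀ n : ℕ, 1 ≤ n → ∀ E E' : ℝ, (∀ e ∈ Set.uIcc E E', |tr lam n e| ≤ κ) →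
    |dE lam n E| ≤ D * |dE lam n E'| ∧ |E - E'| * |dE lam n E| ≤ D ∧
    |tr lam n E - tr lam n E'| ≤ D * (|E - E'| * |dE lam n E|)
  gr : ∀ n : ℕ, 3 ≤ n → ∀ E : ℝ, |tr lam n E| ≤ 1 → c * n ≤ |dE lam n E|

lemma exists_cst (hDi : SDi) (hRt : SRt) (hGr : SGr) (hBd : SBd) {lam : ℝ} (hlam : 0 < lam) :
    ∃ κ B R D c, Cst lam κ B R D c := by
  have h1 : 1 < cc (lam / 2) := one_lt_cc (by positivity)
  set κ := (1 + cc (lam / 2)) / 2 with hκ
  obtain ⟨B, hB1, hB⟩ := hBd lam hlam.ne'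
  obtain ⟨R, hR1, hR⟩ := hRt lam hlam.ne' κ (by linarith) (by linarith)
  obtain ⟨D, hD1, hD⟩ := hDi lam hlam.ne' κ (by linarith) (by linarith)
  obtain ⟨c, hc, hc'⟩ := hGr lam hlam.ne'
  exact ⟨κ, B, R, D, c, by linarith, hB1, hR1, hD1, hc, hB, hR, fun n hn => (hD n hn).1, hc'⟩

variable {lam κ B R D c : ℝ}

lemma Cst.sp (H : Cst lam κ B R D c) {E : ℝ} (hE : E ∈ Sp lam one) (j : ℕ) :
    |tr lam j E| ≤ B := by
  rw [mem_Sp] at hE
  rcases hE j with h | h
  · exact (H.bd (j + 1) (by omega) E h).1 j (by omega)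
  · exact (H.bd (j + 2) (by omega) E h).1 j (by omega)

/-- the selection of the level -/
lemma Cst.level (H : Cst lam κ B R D c) : ∃ (C1 η : ℝ), 0 < C1 ∧ 0 < η ∧ ∀ a b : ℝ, a < b →
    b - a ≤ η → ∀ E0 ∈ Sp lam one, E0 ∈ Icc a b → ∃ k : ℕ, 6 ≤ k ∧ |tr lam k E0| ≤ 1 ∧
      (∀ e ∈ Icc a b, |tr lam k e| ≤ κ) ∧ 0 < |dE lam k E0| ∧
      |dE lam k E0|⁻¹ ≤ C1 * (b - a) ∧ (b - a) * |dE lam k E0| ≤ 2 * D := by
  have hκ := H.hκ
  have hB1 := H.hB1
  have hR1 := H.hR1
  have hD1 := H.hD1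
  have hc := H.hc
  -- uniform continuity
  obtain ⟨D6, h6⟩ := (isCompact_Icc (a := -(2 * B) - 1) (b := 2 * B + 1)).exists_bound_of_continuousOn
    (cont_dE lam 6).continuousOn
  obtain ⟨D7, h7⟩ := (isCompact_Icc (a := -(2 * B) - 1) (b := 2 * B + 1)).exists_bound_of_continuousOn
    (cont_dE lam 7).continuousOn
  set D67 : ℝ := max 1 (max D6 D7) with hD67
  have hD67p : 0 < D67 := lt_of_lt_of_le one_pos (le_max_left _ _)
  set C2 : ℝ := 2 * (R * (1 + B)) * B + 2 * B + R with hC2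
  have hC2p : 0 < C2 := by positivity
  have hRC2 : R * (1 + B) ≤ C2 := by
    have : 0 ≤ R * (1 + B) := by positivity
    have : R * (1 + B) * 1 ≤ R * (1 + B) * B := mul_le_mul_of_nonneg_left hB1 this
    rw [hC2]; nlinarith
  refine ⟨D * C2 / (κ - 1), min 1 ((κ - 1) / D67), div_pos (by positivity) (by linarith),
    lt_min one_pos (div_pos (by linarith) hD67p), ?_⟩
  intro a b hab hη E0 hE0 hE0ab
  have hba : 0 < b - a := by linarith
  have hE0B : ∀ j, |tr lam j E0| ≤ B := H.sp hE0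
  have hη1 : b - a ≤ 1 := hη.trans (min_le_left _ _)
  have hη2 : D67 * (b - a) ≤ κ - 1 := by
    have := hη.trans (min_le_right _ _)
    rw [le_div_iff₀ hD67p] at this
    linarith
  have hE1 : |E0| ≤ 2 * B := by
    have := hE0B 1
    rw [tr_one, abs_div, abs_of_pos (by norm_num : (0:ℝ) < 2)] at this
    linarith
  have hE1' := abs_le.1 hE1
  have hsub : ∀ e ∈ Icc a b, e ∈ Icc (-(2 * B) - 1) (2 * B + 1) := by
    intro e he
    constructor
    · linarith [he.1, hE0ab.2]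
    · linarith [he.2, hE0ab.1]
  have habs : ∀ e ∈ Icc a b, |e - E0| ≤ b - a := by
    intro e he
    rw [abs_le]
    constructor <;> linarith [he.1, he.2, hE0ab.1, hE0ab.2]
  have hosc : ∀ k, (∀ e ∈ Icc (-(2 * B) - 1) (2 * B + 1), |dE lam k e| ≤ D67) →
      |tr lam k E0| ≤ 1 → ∀ e ∈ Icc a b, |tr lam k e| ≤ κ := by
    intro k hk h0 e he
    have h1 := osc (hasDeriv_tr lam k) (a := a) (b := b) (D := D67) (fun x hx => hk x (hsub x hx))
      he hE0ab
    have h2 : D67 * |e - E0| ≤ D67 * (b - a) := mul_le_mul_of_nonneg_left (habs e he) hD67p.le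
    have h3 := abs_sub_abs_le_abs_sub (tr lam k e) (tr lam k E0)
    linarith
  -- the set of levels
  set K : Set ℕ := {k | 6 ≤ k ∧ |tr lam k E0| ≤ 1 ∧ ∀ e ∈ Icc a b, |tr lam k e| ≤ κ} with hK
  have hKn : K.Nonempty := by
    rcases (mem_Sp lam E0).1 hE0 5 with h | h
    · exact ⟨6, le_rfl, h, hosc 6 (fun e he => (h6 e he).trans
        ((le_max_left _ _).trans (le_max_right _ _))) h⟩
    · exact ⟨7, by norm_num, h, hosc 7 (fun e he => (h7 e he).trans
        ((le_max_right _ _).trans (le_max_right _ _))) h⟩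
  have hu : ∀ e ∈ Icc a b, ∀ e' ∈ Icc a b, uIcc e e' ⊆ Icc a b := fun e he e' he' =>
    uIcc_subset_Icc he he'
  have hlen : ∀ k, 1 ≤ k → (∀ e ∈ Icc a b, |tr lam k e| ≤ κ) →
      (b - a) * |dE lam k E0| ≤ 2 * D := by
    intro k hk1 hk
    have ha : a ∈ Icc a b := ⟨le_rfl, hab.le⟩
    have hb : b ∈ Icc a b := ⟨hab.le, le_rfl⟩
    have h1 := (H.di k hk1 E0 a (fun e he => hk e (hu E0 hE0ab a ha he))).2.1
    have h2 := (H.di k hk1 E0 b (fun e he => hk e (hu E0 hE0ab b hb he))).2.1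
    rw [abs_of_nonneg (by linarith [hE0ab.1])] at h1
    rw [abs_of_nonpos (by linarith [hE0ab.2])] at h2
    nlinarith
  have hKb : BddAbove K := by
    refine ⟨⌈2 * D / (c * (b - a))⌉₊, fun k hk => ?_⟩
    have h1 := hlen k (by have := hk.1; omega) hk.2.2
    have h2 := H.gr k (by have := hk.1; omega) E0 hk.2.1
    have h3 : (k:ℝ) ≤ 2 * D / (c * (b - a)) := by
      rw [le_div_iff₀ (by positivity)]
      have := mul_le_mul_of_nonneg_left h2 hba.le
      nlinarith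
    exact_mod_cast h3.trans (Nat.le_ceil _)
  have hmem := Nat.sSup_mem hKn hKb
  set k := sSup K with hk
  have hmax : ∀ j ∈ K, j ≤ k := fun j hj => le_csSup hKb hj
  obtain ⟨hk6, hk1, hkκ⟩ := hmem
  -- the next level
  have hder1 : |dE lam (k + 1) E0| ≤ C2 * |dE lam k E0| := by
    have h1 := (H.rt k (by omega) E0 (by linarith)).2
    have h2 := hE0B (k - 1)
    calc _ ≤ R * (1 + |tr lam (k - 1) E0|) * |dE lam k E0| := h1
      _ ≤ R * (1 + B) * |dE lam k E0| := by gcongr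
      _ ≤ C2 * |dE lam k E0| := by gcongr
  have hder2 : |dE lam (k + 2) E0| ≤ C2 * |dE lam k E0| := by
    obtain ⟨j, hj⟩ : ∃ j, k = j + 1 := ⟨k - 1, by omega⟩
    have h1 := (H.rt k (by omega) E0 (by linarith)).1
    have h2 := (H.rt k (by omega) E0 (by linarith)).2
    have h3 := hE0B (k - 1)
    have h4 := hE0B k
    have h5 := hE0B (k + 1)
    have hrec := dE_rec lam j E0
    have e1 : k + 2 = j + 3 := by omega
    have e2 : k + 1 = j + 2 := by omega
    have e3 : k - 1 = j := by omega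
    rw [e3] at h1 h2 h3
    rw [e2] at h2 h5
    rw [hj] at h4
    rw [e1, hrec]
    have h2' : |dE lam (j + 2) E0| ≤ R * (1 + B) * |dE lam k E0| :=
      h2.trans (by gcongr)
    calc |2 * dE lam (j + 2) E0 * tr lam (j + 1) E0 + 2 * tr lam (j + 2) E0 * dE lam (j + 1) E0
          - dE lam j E0|
        ≤ |2 * dE lam (j + 2) E0 * tr lam (j + 1) E0| +
            |2 * tr lam (j + 2) E0 * dE lam (j + 1) E0| + |dE lam j E0| := by
          refine (abs_sub _ _).trans ?_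
          gcongr
          exact abs_add_le _ _
      _ = 2 * |dE lam (j + 2) E0| * |tr lam (j + 1) E0| +
            2 * |tr lam (j + 2) E0| * |dE lam (j + 1) E0| + |dE lam j E0| := by
          simp only [abs_mul, abs_two]
      _ ≤ 2 * (R * (1 + B) * |dE lam k E0|) * B + 2 * B * |dE lam k E0| + R * |dE lam k E0| := by
          rw [← hj]
          rw [← hj] at h4
          gcongr
      _ = C2 * |dE lam k E0| := by rw [hC2]; ring
  obtain ⟨k', hk'1, hk'2, hk'3⟩ : ∃ k', k < k' ∧ |tr lam k' E0| ≤ 1 ∧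
      |dE lam k' E0| ≤ C2 * |dE lam k E0| := by
    obtain ⟨j, hj⟩ : ∃ j, k = j := ⟨k, rfl⟩
    rcases (mem_Sp lam E0).1 hE0 k with h | h
    · exact ⟨k + 1, by omega, h, hder1⟩
    · exact ⟨k + 2, by omega, h, hder2⟩
  have hnot : k' ∉ K := fun h => by have := hmax k' h; omega
  obtain ⟨e, he, heκ⟩ : ∃ e ∈ Icc a b, κ < |tr lam k' e| := by
    by_contra hcon
    push Not at hcon
    exact hnot ⟨by omega, hk'2, hcon⟩
  obtain ⟨z, hz, hzκ, hz'⟩ := first_hit (g := fun t => |tr lam k' t|) (cont_tr lam k').abs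
    (x := E0) (y := e) (κ := κ) (by linarith) heκ.le
  have hzab := hu E0 hE0ab e he hz
  have hfin := (H.di k' (by omega) E0 z hz').2.2
  have h8 : κ - 1 ≤ |tr lam k' E0 - tr lam k' z| := by
    have := abs_sub_abs_le_abs_sub (tr lam k' z) (tr lam k' E0)
    rw [abs_sub_comm] at this
    linarith
  have h9 : |E0 - z| ≤ b - a := by rw [abs_sub_comm]; exact habs z hzab
  have h10 : κ - 1 ≤ D * ((b - a) * (C2 * |dE lam k E0|)) := by
    calc κ - 1 ≤ _ := h8
      _ ≤ _ := hfin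
      _ ≤ _ := by gcongr
  have hpos : 0 < |dE lam k E0| := by
    rcases (abs_nonneg (dE lam k E0)).lt_or_eq with h | h
    · exact h
    · rw [← h] at h10; simp at h10; linarith
  refine ⟨k, hk6, hk1, hkκ, hpos, ?_, hlen k (by omega) hkκ⟩
  rw [inv_le_iff_one_le_mul₀ hpos]
  have : (D * C2 / (κ - 1)) * (b - a) * |dE lam k E0| =
      (D * ((b - a) * (C2 * |dE lam k E0|))) / (κ - 1) := by
    field_simp
  rw [this, one_le_div (by linarith)]
  exact h10

/-- **Local covers.** -/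
lemma Cst.loc (H : Cst lam κ B R D c) : ∃ (C : ℝ) (M : ℕ) (η : ℝ), 0 < C ∧ 0 < η ∧ ∀ a b : ℝ,
    a < b → b - a ≤ η → ∀ E0 ∈ Sp lam one, E0 ∈ Icc a b →
    ∃ (k : Option (Fin M) → ℕ) (u v : Option (Fin M) → ℝ) (n1 : ℕ),
      (∀ i, 6 ≤ k i ∧ u i ≤ v i ∧ (∀ e ∈ Icc (u i) (v i), |tr lam (k i) e| ≤ 1) ∧
        |dE lam (k i) (u i)|⁻¹ ≤ C * (b - a)) ∧
      ∀ n, n1 ≤ n → ∀ g ∈ Icc a b, tr lam n g = 1 → ∃ i, g ∈ Icc (u i) (v i) := by
  obtain ⟨C1, η, hC1, hη, hlev⟩ := H.level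
  have hκ := H.hκ
  have hB1 := H.hB1
  have hR1 := H.hR1
  have hD1 := H.hD1
  set B2 : ℝ := B + 2 * R * D * D with hB2
  have hB2p : 0 < B2 := by positivity
  set W : ℝ := R * (1 + B2) * D * (2 * D) with hW
  have hWp : 0 < W := by positivity
  set M : ℕ := ⌈W / (κ - 1)⌉₊ with hM
  have hM0 : 0 < M := Nat.ceil_pos.2 (div_pos hWp (by linarith))
  have hMr : (0:ℝ) < M := by exact_mod_cast hM0
  have hMW : W ≤ (κ - 1) * M := by
    have := Nat.le_ceil (W / (κ - 1))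
    rw [div_le_iff₀ (by linarith)] at this
    linarith
  refine ⟨D * R * C1, M, η, by positivity, hη, ?_⟩
  intro a b hab hηab E0 hE0 hE0ab
  obtain ⟨k, hk6, hk1, hkκ, hpos, hinv, hlen⟩ := hlev a b hab hηab E0 hE0 hE0ab
  have hba : 0 < b - a := by linarith
  have hu : ∀ e ∈ Icc a b, ∀ e' ∈ Icc a b, uIcc e e' ⊆ Icc a b := fun e he e' he' =>
    uIcc_subset_Icc he he'
  -- distortion at level k
  have hdis : ∀ x ∈ Icc a b, ∀ y ∈ Icc a b, |dE lam k x| ≤ D * |dE lam k y| := fun x hx y hy =>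
    (H.di k (by omega) x y (fun e he => hkκ e (hu x hx y hy he))).1
  have hab' : ∀ e ∈ Icc a b, |e - E0| ≤ b - a := by
    intro e he
    rw [abs_le]
    constructor <;> linarith [he.1, he.2, hE0ab.1, hE0ab.2]
  -- bound at level k - 1
  have hkm : ∀ e ∈ Icc a b, |tr lam (k - 1) e| ≤ B2 := by
    intro e he
    have h1 := osc (hasDeriv_tr lam (k - 1)) (a := a) (b := b) (D := R * (D * |dE lam k E0|))
      (fun x hx => ((H.rt k (by omega) x (hkκ x hx)).1).trans (by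
        gcongr; exact hdis x hx E0 hE0ab)) he hE0ab
    have h2 := abs_sub_abs_le_abs_sub (tr lam (k - 1) e) (tr lam (k - 1) E0)
    have h3 := H.sp hE0 (k - 1)
    have h4 : R * (D * |dE lam k E0|) * |e - E0| ≤ R * (D * |dE lam k E0|) * (b - a) := by
      gcongr; exact hab' e he
    have h5 : R * (D * |dE lam k E0|) * (b - a) = R * D * ((b - a) * |dE lam k E0|) := by ring
    have h6 : R * D * ((b - a) * |dE lam k E0|) ≤ R * D * (2 * D) := by gcongr
    rw [hB2]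
    nlinarith
  -- derivative at level k + 1
  have hkp : ∀ e ∈ Icc a b, |dE lam (k + 1) e| ≤ R * (1 + B2) * (D * |dE lam k E0|) := by
    intro e he
    have h1 := (H.rt k (by omega) e (hkκ e he)).2
    have h2 := hkm e he
    have h3 := hdis e he E0 hE0ab
    calc _ ≤ _ := h1
      _ ≤ _ := by gcongr
  -- the interval of level k
  obtain ⟨u0, v0, hu0, huv0, hin0, hcov0⟩ := interval_of_mono (cont_tr lam k)
    (mono_of (hasDeriv_tr lam k) (cont_dE lam k) hdis) ⟨E0, hE0ab, hk1⟩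
  have hw0 : ∀ u ∈ Icc a b, |dE lam k u|⁻¹ ≤ D * R * C1 * (b - a) := by
    intro u hu
    have h1 := hdis E0 hE0ab u hu
    have hpu : 0 < |dE lam k u| := by
      rcases (abs_nonneg (dE lam k u)).lt_or_eq with h | h
      · exact h
      · rw [← h] at h1; simp only [mul_zero] at h1; linarith
    have h2 : |dE lam k u|⁻¹ ≤ D * |dE lam k E0|⁻¹ := by
      rw [inv_le_iff_one_le_mul₀ hpu, mul_assoc, ← div_eq_inv_mul, mul_div_assoc',
        one_le_div hpos]
      exact h1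
    have h3 : D * |dE lam k E0|⁻¹ ≤ D * (C1 * (b - a)) := by gcongr
    have h4 : D * (C1 * (b - a)) * 1 ≤ D * (C1 * (b - a)) * R := by gcongr
    calc _ ≤ _ := h2
      _ ≤ _ := h3
      _ = D * (C1 * (b - a)) * 1 := by ring
      _ ≤ _ := h4
      _ = _ := by ring
  -- the intervals of level k + 1
  have hb : ∀ i : Fin M, ∃ (k' : ℕ) (u v : ℝ), 6 ≤ k' ∧ u ≤ v ∧
      (∀ e ∈ Icc u v, |tr lam k' e| ≤ 1) ∧ |dE lam k' u|⁻¹ ≤ D * R * C1 * (b - a) ∧
      ∀ g ∈ Icc a b, g ∈ Icc (a + (i : ℕ) * ((b - a) / M)) (a + ((i : ℕ) + 1) * ((b - a) / M)) →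
        |tr lam (k + 1) g| ≤ 1 → g ∈ Icc u v := by
    intro i
    set p := a + (i : ℕ) * ((b - a) / M) with hp
    set q := a + ((i : ℕ) + 1) * ((b - a) / M) with hq
    have hwp : 0 < (b - a) / M := div_pos hba hMr
    have hMw : (M:ℝ) * ((b - a) / M) = b - a := by field_simp
    have hiM : ((i : ℕ) : ℝ) + 1 ≤ M := by exact_mod_cast i.2
    have hpa : a ≤ p := by
      have : (0:ℝ) ≤ (i : ℕ) * ((b - a) / M) := by positivity
      linarith
    have hqb : q ≤ b := by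
      have : ((i : ℕ) + 1 : ℝ) * ((b - a) / M) ≤ M * ((b - a) / M) := by gcongr
      linarith
    have hpq : q - p = (b - a) / M := by rw [hp, hq]; ring
    have hsub : ∀ e ∈ Icc p q, e ∈ Icc a b := fun e he => ⟨hpa.trans he.1, he.2.trans hqb⟩
    by_cases hex : ∃ g ∈ Icc p q, |tr lam (k + 1) g| ≤ 1
    · obtain ⟨g0, hg0, hg01⟩ := hex
      have hκ' : ∀ e ∈ Icc p q, |tr lam (k + 1) e| ≤ κ := by
        intro e he
        have h1 := osc (hasDeriv_tr lam (k + 1)) (a := a) (b := b)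
          (D := R * (1 + B2) * (D * |dE lam k E0|)) hkp (hsub e he) (hsub g0 hg0)
        have h2 := abs_sub_abs_le_abs_sub (tr lam (k + 1) e) (tr lam (k + 1) g0)
        have h3 : |e - g0| ≤ (b - a) / M := by
          rw [abs_le]
          constructor <;> linarith [he.1, he.2, hg0.1, hg0.2]
        have h4 : R * (1 + B2) * (D * |dE lam k E0|) * |e - g0| ≤
            R * (1 + B2) * (D * |dE lam k E0|) * ((b - a) / M) := by gcongr
        have h5 : R * (1 + B2) * (D * |dE lam k E0|) * ((b - a) / M) =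
            R * (1 + B2) * D * ((b - a) * |dE lam k E0|) / M := by ring
        have h6 : R * (1 + B2) * D * ((b - a) * |dE lam k E0|) / M ≤ W / M := by
          rw [hW]; gcongr
        have h7 : W / M ≤ κ - 1 := by rw [div_le_iff₀ hMr]; exact hMW
        linarith
      have hup : ∀ e ∈ Icc p q, ∀ e' ∈ Icc p q, uIcc e e' ⊆ Icc p q := fun e he e' he' =>
        uIcc_subset_Icc he he'
      obtain ⟨u, v, hu1, huv, hin, hcov⟩ := interval_of_mono (cont_tr lam (k + 1))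
        (mono_of (hasDeriv_tr lam (k + 1)) (cont_dE lam (k + 1)) (C := D) (fun x hx y hy =>
          (H.di (k + 1) (by omega) x y (fun e he => hκ' e (hup x hx y hy he))).1))
        ⟨g0, hg0, hg01⟩
      refine ⟨k + 1, u, v, by omega, huv, hin, ?_, fun g _ hg2 hg3 => hcov g hg2 hg3⟩
      have h1 := (H.rt (k + 1) (by omega) u (hκ' u hu1)).1
      rw [Nat.add_sub_cancel] at h1
      have h2 := hdis E0 hE0ab u (hsub u hu1)
      have h3 : |dE lam k E0| ≤ D * R * |dE lam (k + 1) u| := by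
        calc _ ≤ _ := h2
          _ ≤ D * (R * |dE lam (k + 1) u|) := by gcongr
          _ = _ := by ring
      have hpu : 0 < |dE lam (k + 1) u| := by
        rcases (abs_nonneg (dE lam (k + 1) u)).lt_or_eq with h | h
        · exact h
        · rw [← h] at h3; simp only [mul_zero] at h3; linarith
      have h4 : |dE lam (k + 1) u|⁻¹ ≤ D * R * |dE lam k E0|⁻¹ := by
        rw [inv_le_iff_one_le_mul₀ hpu, mul_assoc, ← div_eq_inv_mul, mul_div_assoc',
          one_le_div hpos]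
        exact h3
      calc _ ≤ _ := h4
        _ ≤ D * R * (C1 * (b - a)) := by gcongr
        _ = _ := by ring
    · refine ⟨k, u0, v0, hk6, huv0, hin0, hw0 u0 hu0, fun g _ hg2 hg3 => ?_⟩
      exact absurd ⟨g, hg2, hg3⟩ hex
  choose k' u v hk' huv hin hw hcov using hb
  refine ⟨fun i => i.elim k k', fun i => i.elim u0 u, fun i => i.elim v0 v, k + 2, ?_, ?_⟩
  · intro i
    cases i with
    | none => exact ⟨hk6, huv0, hin0, hw0 u0 hu0⟩
    | some i => exact ⟨hk' i, huv i, hin i, hw i⟩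
  · intro n hn g hg hgn
    have h1 := (H.bd n (by omega) g (by rw [hgn]; norm_num)).2 k (by omega)
    rcases h1 with h1 | h1
    · exact ⟨none, hcov0 g hg h1⟩
    · obtain ⟨i, hi⟩ := mesh hab hM0 hg
      exact ⟨some i, hcov i g hg hi h1⟩

end Pool.Agent.W935.FM
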