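import Mathlib
import Pool.Agent.W935.FM.CVb
import Pool.Agent.HDSum.Cover

/-!
Project FM, part CV: covers by bands.
-/

set_option autoImplicit false

open Polynomial Set
open scoped ENNReal NNReal

namespace Pool.Agent.W935.FM

open Pool.Agent.W811.Stu Pool.Agent.W745.Fib

/-- approximations -/
def TT (lam B : ℝ) (n : ℕ) : Set ℝ :=
  {E | E ∈ Icc (-(2 * B)) (2 * B) ∧ ∀ m < n, |tr lam (m + 1) E| ≤ 1 ∨ |tr lam (m + 2) E| ≤ 1}

lemma TT_compact (lam B : ℝ) (n : ℕ) : IsCompact (TT lam B n) := by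
  have h1 : IsClosed {E : ℝ | ∀ m < n, |tr lam (m + 1) E| ≤ 1 ∨ |tr lam (m + 2) E| ≤ 1} := by
    have : {E : ℝ | ∀ m < n, |tr lam (m + 1) E| ≤ 1 ∨ |tr lam (m + 2) E| ≤ 1} =
        ⋂ m, ⋂ (_ : m < n), ({E | |tr lam (m + 1) E| ≤ 1} ∪ {E | |tr lam (m + 2) E| ≤ 1}) := by
      ext E; simp
    rw [this]
    refine isClosed_iInter fun m => isClosed_iInter fun _ => ?_
    exact (isClosed_le (cont_tr lam (m + 1)).abs continuous_const).union
      (isClosed_le (cont_tr lam (m + 2)).abs continuous_const)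
  exact isCompact_Icc.inter_right h1

lemma TT_anti (lam B : ℝ) : Antitone (TT lam B) := by
  intro m n hmn E hE
  exact ⟨hE.1, fun j hj => hE.2 j (by omega)⟩

lemma Cst.inter {lam κ B R D c : ℝ} (H : Cst lam κ B R D c) :
    Sp lam one = ⋂ n, TT lam B n := by
  ext E
  rw [mem_iInter, mem_Sp]
  constructor
  · intro hE n
    refine ⟨?_, fun m _ => hE m⟩
    have h1 := H.sp ((mem_Sp lam E).2 hE) 1
    rw [tr_one, abs_div, abs_of_pos (by norm_num : (0:ℝ) < 2)] at h1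
    rw [mem_Icc, ← abs_le]
    linarith
  · intro hE m
    exact (hE (m + 1)).2 m (by omega)

lemma Cst.compact {lam κ B R D c : ℝ} (H : Cst lam κ B R D c) : IsCompact (Sp lam one) := by
  rw [H.inter]
  exact (TT_compact lam B 0).of_isClosed_subset
    (isClosed_iInter fun n => (TT_compact lam B n).isClosed) (iInter_subset _ 0)

/-- a number with small power -/
lemma small_pow {t A : ℝ} (ht : 0 < t) (hA : 0 < A) : ∃ x : ℝ, 0 < x ∧ x ^ t ≤ A :=
  ⟨A ^ (1 / t), by positivity, by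
    rw [← Real.rpow_mul hA.le, one_div_mul_cancel ht.ne', Real.rpow_one]⟩

theorem scv (hDi : SDi) (hRt : SRt) (hGr : SGr) (hBd : SBd) : SCv := by
  classical
  intro lam hlam s hs ε hε
  obtain ⟨κ, B, R, D, c, H⟩ := exists_cst hDi hRt hGr hBd hlam
  obtain ⟨C, M, η, hC, hη, hloc⟩ := H.loc
  obtain ⟨s', hs'1, hs'2⟩ := ENNReal.lt_iff_exists_nnreal_btwn.1 hs
  have hs'3 : (s' : ℝ) < s := by
    have := ENNReal.coe_lt_coe.1 hs'2
    exact_mod_cast this
  have hs'0 : 0 < (s' : ℝ) := by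
    have : (0 : ℝ≥0∞) < s' := lt_of_le_of_lt bot_le hs'1
    exact_mod_cast this
  have hs0 : 0 < (s : ℝ) := hs'0.trans hs'3
  have hmu : MeasureTheory.Measure.hausdorffMeasure (s' : ℝ) (Sp lam one) = 0 :=
    hausdorffMeasure_of_dimH_lt hs'1
  set A : ℝ := ε / ((M + 1) * (2 * C) ^ (s : ℝ)) with hA
  have hA0 : 0 < A := by positivity
  obtain ⟨x, hx0, hxA⟩ := small_pow (t := (s : ℝ) - s') (by linarith) hA0
  set δ : ℝ := min x (η / 2) with hδ
  have hδ0 : 0 < δ := lt_min hx0 (by positivity)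
  obtain ⟨U, hU1, hU2, hU3⟩ := Pool.Agent.HDSum.finite_cover_of_hausdorff_zero (Sp lam one)
    H.compact s' hs'0 hmu δ hδ0
  -- the pieces
  set U' : Finset (ℝ × ℝ) := U.filter (fun u => ∃ e ∈ Sp lam one, |e - u.1| < u.2) with hU'
  have hpc : ∀ w : {w // w ∈ U'}, ∃ (k : Option (Fin M) → ℕ) (u v : Option (Fin M) → ℝ) (n1 : ℕ),
      (∀ i, 6 ≤ k i ∧ u i ≤ v i ∧ (∀ e ∈ Icc (u i) (v i), |tr lam (k i) e| ≤ 1) ∧
        |dE lam (k i) (u i)|⁻¹ ≤ C * (2 * w.1.2)) ∧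
      ∀ n, n1 ≤ n → ∀ g ∈ Icc (w.1.1 - w.1.2) (w.1.1 + w.1.2), tr lam n g = 1 →
        ∃ i, g ∈ Icc (u i) (v i) := by
    rintro ⟨w, hw⟩
    rw [hU', Finset.mem_filter] at hw
    obtain ⟨hw1, e, he, hew⟩ := hw
    obtain ⟨hr0, hrδ⟩ := hU1 w hw1
    have hrη : 2 * w.2 ≤ η := by
      have := hrδ.trans (min_le_right _ _)
      linarith
    have habs := abs_lt.1 hew
    obtain ⟨k, u, v, n1, h1, h2⟩ := hloc (w.1 - w.2) (w.1 + w.2) (by linarith) (by linarith) e he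
      ⟨by linarith [habs.1], by linarith [habs.2]⟩
    refine ⟨k, u, v, n1, fun i => ⟨(h1 i).1, (h1 i).2.1, (h1 i).2.2.1, ?_⟩, h2⟩
    have := (h1 i).2.2.2
    rwa [show w.1 + w.2 - (w.1 - w.2) = 2 * w.2 by ring] at this
  choose k u v n1 hp1 hp2 using hpc
  -- the index set
  set ι := {w // w ∈ U'} × Option (Fin M) with hι
  let eq : Fin (Fintype.card ι) ≃ ι := (Fintype.equivFin ι).symm
  -- nested compact sets
  obtain ⟨nT, hnT⟩ : ∃ n, TT lam B n ⊆ ⋃ w ∈ U', Ioo (w.1 - w.2) (w.1 + w.2) := by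
    have hopen : IsOpen (⋃ w ∈ U', Ioo (w.1 - w.2) (w.1 + w.2)) :=
      isOpen_biUnion fun _ _ => isOpen_Ioo
    refine exists_subset_nhds_of_isCompact (V := TT lam B) ?_ (TT_compact lam B)
      fun y hy => hopen.mem_nhds ?_
    · intro i j
      exact ⟨max i j, TT_anti lam B (le_max_left _ _), TT_anti lam B (le_max_right _ _)⟩
    · rw [← H.inter] at hy
      obtain ⟨w, hw, hwy⟩ := hU2 y hy
      rw [mem_iUnion₂]
      have := abs_lt.1 hwy
      exact ⟨w, Finset.mem_filter.2 ⟨hw, y, hy, hwy⟩, by linarith [this.1], by linarith [this.2]⟩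
  refine ⟨Fintype.card ι, fun i => k (eq i).1 (eq i).2, fun i => u (eq i).1 (eq i).2,
    fun i => v (eq i).1 (eq i).2, ?_, ?_, ?_⟩
  · intro i
    have := hp1 (eq i).1 (eq i).2
    exact ⟨this.1, this.2.1, this.2.2.1⟩
  · rw [Equiv.sum_comp eq (fun p : ι => |dE lam (k p.1 p.2) (u p.1 p.2)| ^ (-(s : ℝ))),
      Fintype.sum_prod_type]
    have hterm : ∀ (w : {w // w ∈ U'}) (i : Option (Fin M)),
        |dE lam (k w i) (u w i)| ^ (-(s : ℝ)) ≤ (2 * C) ^ (s : ℝ) * (δ ^ ((s : ℝ) - s') *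
          w.1.2 ^ (s' : ℝ)) := by
      intro w i
      have h1 := (hp1 w i).2.2.2
      have hwU : w.1 ∈ U := (Finset.mem_filter.1 w.2).1
      obtain ⟨hr0, hrδ⟩ := hU1 w.1 hwU
      calc |dE lam (k w i) (u w i)| ^ (-(s : ℝ)) = (|dE lam (k w i) (u w i)|⁻¹) ^ (s : ℝ) := by
            rw [Real.rpow_neg (abs_nonneg _), Real.inv_rpow (abs_nonneg _)]
        _ ≤ (C * (2 * w.1.2)) ^ (s : ℝ) :=
            Real.rpow_le_rpow (inv_nonneg.2 (abs_nonneg _)) h1 hs0.le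
        _ = ((2 * C) * w.1.2) ^ (s : ℝ) := by congr 1; ring
        _ = (2 * C) ^ (s : ℝ) * w.1.2 ^ (s : ℝ) := Real.mul_rpow (by positivity) hr0.le
        _ = (2 * C) ^ (s : ℝ) * (w.1.2 ^ ((s : ℝ) - s') * w.1.2 ^ (s' : ℝ)) := by
            rw [← Real.rpow_add hr0]; congr 2; ring
        _ ≤ _ := by
            have : w.1.2 ^ ((s : ℝ) - s') ≤ δ ^ ((s : ℝ) - s') :=
              Real.rpow_le_rpow hr0.le hrδ (by linarith)
            gcongr
    have hδA : δ ^ ((s : ℝ) - s') ≤ A :=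
      (Real.rpow_le_rpow hδ0.le (min_le_left _ _) (by linarith)).trans hxA
    have hsumU : ∑ w : {w // w ∈ U'}, w.1.2 ^ (s' : ℝ) ≤ 1 := by
      rw [Finset.sum_coe_sort U' (fun w : ℝ × ℝ => w.2 ^ (s' : ℝ))]
      refine le_trans (Finset.sum_le_sum_of_subset_of_nonneg (Finset.filter_subset _ _)
        (fun w hw _ => Real.rpow_nonneg (hU1 w hw).1.le _)) hU3
    calc ∑ w : {w // w ∈ U'}, ∑ i : Option (Fin M), |dE lam (k w i) (u w i)| ^ (-(s : ℝ))
        ≤ ∑ w : {w // w ∈ U'}, ∑ _i : Option (Fin M), (2 * C) ^ (s : ℝ) *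
            (δ ^ ((s : ℝ) - s') * w.1.2 ^ (s' : ℝ)) :=
          Finset.sum_le_sum fun w _ => Finset.sum_le_sum fun i _ => hterm w i
      _ = ((M + 1) * (2 * C) ^ (s : ℝ)) * δ ^ ((s : ℝ) - s') *
            ∑ w : {w // w ∈ U'}, w.1.2 ^ (s' : ℝ) := by
          simp only [Finset.sum_const, Finset.card_univ, Fintype.card_option, Fintype.card_fin,
            nsmul_eq_mul]
          rw [Finset.mul_sum]
          refine Finset.sum_congr rfl fun w _ => ?_
          push_cast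
          ring
      _ ≤ ((M + 1) * (2 * C) ^ (s : ℝ)) * A * 1 := by
          have hnn : 0 ≤ ∑ w : {w // w ∈ U'}, w.1.2 ^ (s' : ℝ) :=
            Finset.sum_nonneg fun w _ =>
              Real.rpow_nonneg (hU1 w.1 (Finset.mem_filter.1 w.2).1).1.le _
          gcongr
      _ = ε := by rw [hA]; field_simp
  · refine ⟨max (nT + 2) (Finset.univ.sup n1), fun n hn E hE => ?_⟩
    have hn1 : nT + 2 ≤ n := (le_max_left _ _).trans hn
    have hn2 : Finset.univ.sup n1 ≤ n := (le_max_right _ _).trans hn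
    obtain ⟨hb1, hb2⟩ := H.bd n (by omega) E (by rw [hE]; norm_num)
    have hmem : E ∈ TT lam B nT := by
      refine ⟨?_, fun m hm => hb2 (m + 1) (by omega)⟩
      have h1 := hb1 1 (by omega)
      rw [tr_one, abs_div, abs_of_pos (by norm_num : (0:ℝ) < 2)] at h1
      rw [mem_Icc, ← abs_le]
      linarith
    have h3 := hnT hmem
    rw [mem_iUnion₂] at h3
    obtain ⟨w, hw, hEw⟩ := h3
    obtain ⟨i, hi⟩ := hp2 ⟨w, hw⟩ n ((Finset.le_sup (Finset.mem_univ (⟨w, hw⟩ : {w // w ∈ U'}))).trans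
      hn2) E ⟨hEw.1.le, hEw.2.le⟩ hE
    refine ⟨eq.symm (⟨w, hw⟩, i), ?_⟩
    simp only [Equiv.apply_symm_apply]
    exact hi

end Pool.Agent.W935.FM
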